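import Pool.Agent.Y786.FR.Main

set_option autoImplicit false

/-!
# Project SL (MP_d2121a_nt): Heilbronn functions on `SL_n(F)` in characteristic two

Statements of the jobs. `F` is always a finite field of characteristic two.
-/

namespace Pool.Agent.Y788.SL

open Matrix Pool.Agent.H302R2 Pool.Agent.H541R3.ART

variable {F : Type} [Field F]

/-- the unipotent element `[[1, x], [0, 1]]` of `SL_2(F)` -/
def ux (x : F) : SpecialLinearGroup (Fin 2) F :=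
  ⟨!![1, x; 0, 1], by rw [Matrix.det_fin_two]; simp⟩

/-- the diagonal element `diag(c, c⁻¹)` of `SL_2(F)` -/
def tc (c : Fˣ) : SpecialLinearGroup (Fin 2) F :=
  ⟨!![(c : F), 0; 0, ((c⁻¹ : Fˣ) : F)], by rw [Matrix.det_fin_two]; simp⟩

/-- transvections -/
def IsTv {n : ℕ} (g : SpecialLinearGroup (Fin n) F) : Prop :=
  ∃ v φ : Fin n → F, v ≠ 0 ∧ φ ≠ 0 ∧ φ ⬝ᵥ v = 0 ∧
    (g : Matrix (Fin n) (Fin n) F) = 1 + vecMulVec v φ

/-- scalar matrices -/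
def IsSc {n : ℕ} (g : SpecialLinearGroup (Fin n) F) : Prop :=
  ∃ c : F, (g : Matrix (Fin n) (Fin n) F) = c • (1 : Matrix (Fin n) (Fin n) F)

/-- job A: structure of a Heilbronn function on `SL_2(F)` -/
def SA : Prop := ∀ (F : Type) [Field F] [Finite F] [CharP F 2]
  (θ : SpecialLinearGroup (Fin 2) F → ℂ), IsHeilbronn θ →
  ∃ (N : ℝ) (f : ℝ) (I : Type) (_ : Fintype I) (μ : I → Fˣ →* ℂˣ) (b : I → ℝ),
    0 ≤ N ∧ (∀ i, 0 ≤ b i) ∧
    (∀ x : F, x ≠ 0 → θ (ux x) = (f : ℂ)) ∧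
    θ 1 = ((f + Nat.card F * N : ℝ) : ℂ) ∧
    (∀ c : Fˣ, c ≠ 1 → θ (tc c) = ∑ i, (b i : ℂ) * ((μ i c : ℂˣ) : ℂ)) ∧
    (∑ i, b i = f + N) ∧
    ∑ i, (open Classical in if μ i = 1 then 0 else b i) ≤ 2 * N

/-- job B: the comparison of split and unipotent elements of an `SL_2(F)` in a finite group, twisted
by an element `g` of its centralizer -/
def SB : Prop := ∀ (F : Type) [Field F] [Finite F] [CharP F 2] (S : Type) [Group S] [Finite S]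
  (θ : S → ℂ), IsHeilbronn θ → ∀ (L : SpecialLinearGroup (Fin 2) F →* S) (g : S),
  (∀ h, g * L h = L h * g) → ∀ c : Fˣ, c ≠ 1 →
  ‖θ (g * L (tc c)) - θ (g * L (ux 1))‖ ≤
    5 * ((θ 1).re - (θ (L (ux 1))).re) / Nat.card F

/-- job C: the abstract move. `D` is a subgroup with `g D g⁻¹ ≤ D`, `a` commutes with `D` and
modulo `D` with `g`. -/
def SC : Prop := ∀ (S : Type) [Group S] [Finite S] (θ : S → ℂ), IsHeilbronn θ →
  ∀ (D : Subgroup S) (g a : S) (f : ℂ),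
    (∀ d ∈ D, g * d * g⁻¹ ∈ D) → (∀ d ∈ D, a * d = d * a) → g * a * g⁻¹ * a⁻¹ ∈ D →
    a * a = 1 →
    (∀ d ∈ D, θ (g * d) = θ g) → (∀ d ∈ D, θ (g * a * d) = θ (g * a)) →
    (∀ d ∈ D, d ≠ 1 → θ d = f) → (∀ d ∈ D, θ (a * d) = f) →
    ‖θ g - θ (g * a)‖ ≤ ((θ 1).re - f.re) / Nat.card D

/-- job D: all transvections are conjugate in `SL_n(F)` -/
def SD : Prop := ∀ (F : Type) [Field F] [Finite F] [CharP F 2] (n : ℕ)
  (g g' : SpecialLinearGroup (Fin n) F), IsTv g → IsTv g' →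
  ∃ h : SpecialLinearGroup (Fin n) F, g' = h * g * h⁻¹

/-- job E: the move in `SL_n(F)`: `v` is an eigenvector of `g` and `g` is not scalar modulo `v` -/
def SE : Prop := ∀ (F : Type) [Field F] [Finite F] [CharP F 2] (n : ℕ)
  (θ : SpecialLinearGroup (Fin n) F → ℂ), IsHeilbronn θ →
  ∀ (f : ℝ), (∀ g, IsTv g → θ g = (f : ℂ)) →
  ∀ (g g' : SpecialLinearGroup (Fin n) F) (v φ : Fin n → F) (lam : F), v ≠ 0 →
    (g : Matrix (Fin n) (Fin n) F) *ᵥ v = lam • v →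
    (∃ w : Fin n → F, ∀ c : F, (g : Matrix (Fin n) (Fin n) F) *ᵥ w - lam • w ≠ c • v) →
    φ ⬝ᵥ v = 0 →
    (g' : Matrix (Fin n) (Fin n) F) = (g : Matrix (Fin n) (Fin n) F) + vecMulVec v φ →
    ‖θ g - θ g'‖ ≤ ((θ 1).re - f) / Nat.card F

/-- job G: diagonal elements -/
def SG : Prop := ∀ (F : Type) [Field F] [Finite F] [CharP F 2] (n : ℕ)
  (θ : SpecialLinearGroup (Fin n) F → ℂ), IsHeilbronn θ →
  ∀ (f : ℝ), (∀ g, IsTv g → θ g = (f : ℂ)) →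
  ∀ (g : SpecialLinearGroup (Fin n) F) (d : Fin n → F),
    (g : Matrix (Fin n) (Fin n) F) = Matrix.diagonal d → (∃ i j, d i ≠ d j) →
    ‖θ g - (f : ℂ)‖ ≤ 10 * n * (((θ 1).re - f) / Nat.card F)

/-- job T: scalar multiples of transvections -/
def ST : Prop := ∀ (F : Type) [Field F] [Finite F] [CharP F 2] (n : ℕ)
  (θ : SpecialLinearGroup (Fin n) F → ℂ), IsHeilbronn θ →
  ∀ (f : ℝ), (∀ g, IsTv g → θ g = (f : ℂ)) →
  ∀ (g : SpecialLinearGroup (Fin n) F) (c : F) (v φ : Fin n → F), v ≠ 0 → φ ≠ 0 → φ ⬝ᵥ v = 0 →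
    (g : Matrix (Fin n) (Fin n) F) = c • (1 + vecMulVec v φ) →
    ‖θ g - (f : ℂ)‖ ≤ (10 * n + 5) * (((θ 1).re - f) / Nat.card F)

/-- job U: upper triangular elements -/
def SU : Prop := ∀ (F : Type) [Field F] [Finite F] [CharP F 2] (n : ℕ)
  (θ : SpecialLinearGroup (Fin n) F → ℂ), IsHeilbronn θ →
  ∀ (f : ℝ), (∀ g, IsTv g → θ g = (f : ℂ)) →
  ∀ (g : SpecialLinearGroup (Fin n) F),
    (∀ i j : Fin n, j < i → (g : Matrix (Fin n) (Fin n) F) i j = 0) → ¬ IsSc g →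
    ‖θ g - (f : ℂ)‖ ≤ 14 * n * (((θ 1).re - f) / Nat.card F)

/-- job H: triangularization -/
def SH : Prop := ∀ (F : Type) [Field F] [Finite F] [CharP F 2] (n : ℕ)
  (g : SpecialLinearGroup (Fin n) F) (a : ℕ), g ^ (2 ^ a * (Nat.card F - 1)) = 1 →
  ∃ h : SpecialLinearGroup (Fin n) F,
    ∀ i j : Fin n, j < i → ((h * g * h⁻¹ : SpecialLinearGroup (Fin n) F) :
      Matrix (Fin n) (Fin n) F) i j = 0

/-- job N: multiplicities in the restriction to a subgroup of `SL_n(F)`, `F` large -/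
def SN : Prop := ∀ (F : Type) [Field F] [Finite F] [CharP F 2] (n : ℕ),
  (∀ θ : SpecialLinearGroup (Fin n) F → ℂ, IsHeilbronn θ →
    ∃ f : ℝ, ∀ g, (∃ a : ℕ, g ^ (2 ^ a * (Nat.card F - 1)) = 1) → ¬ IsSc g →
      ‖θ g - (f : ℂ)‖ ≤ 14 * n * (((θ 1).re - f) / Nat.card F)) →
  ∀ (θ : SpecialLinearGroup (Fin n) F → ℂ), IsHeilbronn θ →
  ∀ (G : Type) [Group G] [Fintype G] (ι : G →* SpecialLinearGroup (Fin n) F),
    Function.Injective ι → (∀ g : G, ∃ a : ℕ, g ^ (2 ^ a * (Nat.card F - 1)) = 1) →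
    42 * n * Fintype.card G ≤ Nat.card F →
    ∀ χ ∈ Irr G, ∀ m : ℤ, ∑ g : G, θ (ι g) * χ g⁻¹ = (m : ℂ) * Fintype.card G → 0 ≤ m

/-- job P: multiplicities in the restriction to a split subgroup of `SL_2(F)` -/
def SP : Prop := ∀ (F : Type) [Field F] [Finite F] [CharP F 2]
  (θ : SpecialLinearGroup (Fin 2) F → ℂ), IsHeilbronn θ →
  ∀ (G : Type) [Group G] [Fintype G] (ι : G →* SpecialLinearGroup (Fin 2) F),
    Function.Injective ι → (∀ g : G, ∃ a : ℕ, g ^ (2 ^ a * (Nat.card F - 1)) = 1) →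
    ∀ χ ∈ Irr G, ∀ m : ℤ, ∑ g : G, θ (ι g) * χ g⁻¹ = (m : ℂ) * Fintype.card G → 0 ≤ m

/-- job K: every finite group embeds in some `SL_n(F)` as required -/
def SK : Prop := ∀ (G : Type) [Group G] [Finite G],
  ∃ (n : ℕ) (F : Type) (_ : Field F) (_ : Finite F) (_ : CharP F 2)
    (ι : G →* SpecialLinearGroup (Fin n) F), Function.Injective ι ∧
    (∀ g : G, ∃ a : ℕ, g ^ (2 ^ a * (Nat.card F - 1)) = 1) ∧
    42 * n * Nat.card G ≤ Nat.card F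

end Pool.Agent.Y788.SL
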