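import Pool.Agent.Y788.SL.Stm

set_option autoImplicit false

/-!
# Artin L-functions of subgroups of `SL_n(F)` in characteristic two: assembly
-/

namespace Pool.Agent.Y788.SL

open Matrix Pool.Agent.H302R2 Pool.Agent.H541R3.ART Pool.Agent.Y786.FR Pool.Agent.W446.AS
  Filter Topology

/-- the value of a Heilbronn function at an involution is real -/
lemma real_of_inv {S : Type} [Group S] [Finite S] {θ : S → ℂ} (hθ : IsHeilbronn θ) {u : S}
    (hu : u * u = 1) : θ u = (((θ u).re : ℝ) : ℂ) := by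
  obtain ⟨ι, _, ψ, n, h⟩ := (hθ.comp (Subgroup.zpowers u).subtype).comm_decomp (zpowers_comm u)
  have h1 := h ⟨u, Subgroup.mem_zpowers u⟩
  have h2 : ∀ i, ((ψ i ⟨u, Subgroup.mem_zpowers u⟩ : ℂˣ) : ℂ) = 1 ∨
      ((ψ i ⟨u, Subgroup.mem_zpowers u⟩ : ℂˣ) : ℂ) = -1 := by
    intro i
    have h3 : (⟨u, Subgroup.mem_zpowers u⟩ : Subgroup.zpowers u) *
        ⟨u, Subgroup.mem_zpowers u⟩ = 1 := Subtype.ext hu
    have h4 : ((ψ i ⟨u, Subgroup.mem_zpowers u⟩ : ℂˣ) : ℂ) *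
        ((ψ i ⟨u, Subgroup.mem_zpowers u⟩ : ℂˣ) : ℂ) = 1 := by
      rw [← Units.val_mul, ← map_mul, h3, map_one, Units.val_one]
    exact mul_self_eq_one_iff.mp h4
  have h5 : (θ u).im = 0 := by
    have h6 : θ u = ∑ i, (n i : ℂ) * ((ψ i ⟨u, Subgroup.mem_zpowers u⟩ : ℂˣ) : ℂ) := h1
    rw [h6, Complex.im_sum]
    refine Finset.sum_eq_zero fun i _ => ?_
    rcases h2 i with h7 | h7 <;> rw [h7] <;> simp
  exact Complex.ext (by simp) (by simp [h5])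

lemma isTv_sq {F : Type} [Field F] [CharP F 2] {n : ℕ} {g : SpecialLinearGroup (Fin n) F}
    (hg : IsTv g) : g * g = 1 := by
  obtain ⟨v, φ, -, -, h0, h⟩ := hg
  apply Subtype.ext
  have h1 : ((g * g : SpecialLinearGroup (Fin n) F) : Matrix (Fin n) (Fin n) F) =
      (g : Matrix (Fin n) (Fin n) F) * (g : Matrix (Fin n) (Fin n) F) := rfl
  have h2 : ((1 : SpecialLinearGroup (Fin n) F) : Matrix (Fin n) (Fin n) F) = 1 := rfl
  change ((g * g : SpecialLinearGroup (Fin n) F) : Matrix (Fin n) (Fin n) F) =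
    ((1 : SpecialLinearGroup (Fin n) F) : Matrix (Fin n) (Fin n) F)
  have h3 : vecMulVec v φ + vecMulVec v φ = (0 : Matrix (Fin n) (Fin n) F) := by
    ext i j
    exact CharTwo.add_self_eq_zero _
  have h4 : vecMulVec v φ * vecMulVec v φ = (0 : Matrix (Fin n) (Fin n) F) := by
    rw [vecMulVec_mul_vecMulVec, h0]
    ext i j
    simp [vecMulVec_apply]
  rw [h1, h2, h, add_mul, one_mul, mul_add, mul_one, h4, add_zero, add_assoc, h3, add_zero]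

/-- the basic estimate for all split non-scalar elements -/
theorem split_est (hD : SD) (hU : SU) (hH : SH) (F : Type) [Field F] [Finite F] [CharP F 2]
    (n : ℕ) (θ : SpecialLinearGroup (Fin n) F → ℂ) (hθ : IsHeilbronn θ) :
    ∃ f : ℝ, ∀ g, (∃ a : ℕ, g ^ (2 ^ a * (Nat.card F - 1)) = 1) → ¬ IsSc g →
      ‖θ g - (f : ℂ)‖ ≤ 14 * n * (((θ 1).re - f) / Nat.card F) := by
  have key : ∃ f : ℝ, ∀ g : SpecialLinearGroup (Fin n) F, IsTv g → θ g = (f : ℂ) := by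
    by_cases h : ∃ g : SpecialLinearGroup (Fin n) F, IsTv g
    · obtain ⟨g₀, hg₀⟩ := h
      refine ⟨(θ g₀).re, fun g hg => ?_⟩
      obtain ⟨h, rfl⟩ := hD F n g₀ g hg₀ hg
      rw [hθ.conj]
      exact real_of_inv hθ (isTv_sq hg₀)
    · exact ⟨0, fun g hg => absurd ⟨g, hg⟩ h⟩
  obtain ⟨f, hf⟩ := key
  refine ⟨f, fun g hg hns => ?_⟩
  obtain ⟨a, ha⟩ := hg
  obtain ⟨h, hh⟩ := hH F n g a ha
  have h1 := hU F n θ hθ f hf (h * g * h⁻¹) hh ?_
  · rwa [hθ.conj] at h1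
  · rintro ⟨c, hc⟩
    apply hns
    refine ⟨c, ?_⟩
    have h2 : g = h⁻¹ * (h * g * h⁻¹) * h := by group
    have h3 : (g : Matrix (Fin n) (Fin n) F) =
        ((h⁻¹ : SpecialLinearGroup (Fin n) F) : Matrix (Fin n) (Fin n) F) *
          ((h * g * h⁻¹ : SpecialLinearGroup (Fin n) F) : Matrix (Fin n) (Fin n) F) *
          (h : Matrix (Fin n) (Fin n) F) := by
      conv_lhs => rw [h2]
      rfl
    rw [h3, hc, Matrix.mul_smul, Matrix.smul_mul, mul_one]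
    have h4 : ((h⁻¹ : SpecialLinearGroup (Fin n) F) : Matrix (Fin n) (Fin n) F) *
        (h : Matrix (Fin n) (Fin n) F) = ((h⁻¹ * h : SpecialLinearGroup (Fin n) F) :
          Matrix (Fin n) (Fin n) F) := rfl
    rw [h4, inv_mul_cancel]
    rfl

/-- nonnegativity of the multiplicities -/
theorem mult_nonneg (hD : SD) (hU : SU) (hH : SH) (hN : SN) (hP : SP) (F : Type) [Field F]
    [Finite F] [CharP F 2] (n : ℕ) (θ : SpecialLinearGroup (Fin n) F → ℂ) (hθ : IsHeilbronn θ)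
    (G : Type) [Group G] [Fintype G] (ι : G →* SpecialLinearGroup (Fin n) F)
    (hι : Function.Injective ι) (hG : ∀ g : G, ∃ a : ℕ, g ^ (2 ^ a * (Nat.card F - 1)) = 1)
    (hq : n = 2 ∨ 42 * n * Nat.card G ≤ Nat.card F) {χ : G → ℂ} (hχ : χ ∈ Irr G) (m : ℤ)
    (hm : ∑ g : G, θ (ι g) * χ g⁻¹ = (m : ℂ) * Nat.card G) : 0 ≤ m := by
  rw [Nat.card_eq_fintype_card] at hm hq
  rcases hq with rfl | hq
  · exact hP F θ hθ G ι hι hG χ hχ m hm
  · exact hN F n (split_est hD hU hH F n) θ hθ G ι hι hG hq χ hχ m hm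

/-- **Main theorem.** -/
theorem main (hD : SD) (hU : SU) (hH : SH) (hN : SN) (hP : SP) (F : Type) [Field F]
    [Finite F] [CharP F 2] (n : ℕ) (Γ : Type) [Group Γ] [Finite Γ]
    (j : SpecialLinearGroup (Fin n) F →* Γ)
    (G : Type) [Group G] [Finite G] (ι : G →* SpecialLinearGroup (Fin n) F)
    (hι : Function.Injective ι) (hG : ∀ g : G, ∃ a : ℕ, g ^ (2 ^ a * (Nat.card F - 1)) = 1)
    (hq : n = 2 ∨ 42 * n * Nat.card G ≤ Nat.card F) (χ : G → ℂ) (hχ : χ ∈ Irr G) :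
    ∃ (k l : ℕ) (H : Fin l → Subgroup Γ) (lam : ∀ i, H i →* ℂˣ), 0 < k ∧
      (∀ σ, (k : ℂ) * ind (j.comp ι) χ σ =
        ∑ i, ind (H i).subtype (fun h => ((lam i h : ℂˣ) : ℂ)) σ) ∧
      ∀ (s₀ : ℂ) (A : ArtinData Γ s₀) (M : (G → ℂ) → ℂ → ℂ), Induced (j.comp ι) A M →
        (fun s => M χ s ^ k) =ᶠ[𝓝[≠] s₀] (fun s => ∏ i, A.Lin (H i) (lam i) s) ∧
          0 ≤ meromorphicOrderAt (M χ) s₀ := by
  classical
  have : Fintype G := Fintype.ofFinite G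
  choose! v hv using fun (χ : G → ℂ) (hχ : χ ∈ Irr G) (ψ : Γ → ℂ)
    (hψ : ψ ∈ Irr Γ) => exists_mult_hom hψ (j.comp ι) hχ
  have hpair : ∀ n : (Γ → ℂ) → ℤ,
      ∑ g : G, theta n (j (ι g)) * χ g⁻¹ =
        ((∑ ψ ∈ irrF Γ, (v χ ψ : ℤ) * n ψ : ℤ) : ℂ) * Nat.card G := fun n =>
    theta_pair_hom n (j.comp ι) χ (v χ) (hv χ hχ)
  obtain ⟨k, l, H, lam, w, hk, hw, hkv⟩ := cone_of_heilbronn (Γ := Γ) (v χ) (by
    intro n hn
    exact mult_nonneg hD hU hH hN hP F _ (fun σ => theta n (j σ)) (hn.comp j) G ι hι hG hq hχ _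
      (hpair n))
  refine ⟨k, l, H, lam, hk, ind_identity (j.comp ι) χ (v χ) (hv χ hχ) H lam w hw hkv, ?_⟩
  intro s₀ A M hM
  refine ⟨L_identity A (v χ) (hM χ hχ (v χ) (hv χ hχ)) H lam w hw hkv, ?_⟩
  have h1 := mult_nonneg hD hU hH hN hP F _ (fun σ => theta A.ord (j σ)) (A.isHeilbronn.comp j) G ι
    hι hG hq hχ _ (hpair A.ord)
  rw [order_M A (v χ) (hM χ hχ (v χ) (hv χ hχ))]
  exact_mod_cast h1

end Pool.Agent.Y788.SL
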